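import Mathlib
import Pool.Agent.H354.NORE.Stmts

set_option autoImplicit false

open CategoryTheory

namespace Pool.Agent.H462T0

open Classical in
theorem exists_dec (k V : Type) [Field k] [AddCommGroup V] [Module k V] (e : V) :
    ∃ (ι : Type) (vec : ι → V) (cf : V →ₗ[k] (ι →₀ k)) (c0 : V →ₗ[k] k),
      (∀ v, v = Finsupp.linearCombination k vec (cf v) + c0 v • e) ∧
      (∀ i, cf (vec i) = Finsupp.single i 1) ∧ (∀ i, c0 (vec i) = 0) ∧ cf e = 0 ∧
      (e ≠ 0 → c0 e = 1) ∧ (e = 0 → c0 = 0) := by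
  obtain ⟨c0, h1, h2⟩ : ∃ c0 : V →ₗ[k] k, (e ≠ 0 → c0 e = 1) ∧ (e = 0 → c0 = 0) := by
    by_cases he : e = 0
    · exact ⟨0, fun h => absurd he h, fun _ => rfl⟩
    · obtain ⟨f, hf⟩ := Module.Projective.exists_dual_eq_one k he
      exact ⟨f, fun _ => hf, fun h => absurd h he⟩
  have hker : ∀ v, ((LinearMap.id : V →ₗ[k] V) - c0.smulRight e) v ∈ LinearMap.ker c0 := by
    intro v
    rw [LinearMap.mem_ker]
    by_cases he : e = 0
    · rw [h2 he]; simp
    · simp [h1 he]
  set pr : V →ₗ[k] LinearMap.ker c0 := ((LinearMap.id : V →ₗ[k] V) - c0.smulRight e).codRestrict _ hker with hpr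
  set b := Module.Basis.ofVectorSpace k (LinearMap.ker c0) with hb
  refine ⟨_, fun i => (b i : V), b.repr.toLinearMap ∘ₗ pr, c0, ?_, ?_, ?_, ?_, h1, h2⟩
  · intro v
    have e1 : Finsupp.linearCombination k (fun i => (b i : V)) (b.repr (pr v)) = (pr v : V) := by
      have h3 := b.linearCombination_repr (pr v)
      have h4 := congrArg (LinearMap.ker c0).subtype h3
      rw [Finsupp.apply_linearCombination] at h4
      exact h4
    show v = Finsupp.linearCombination k (fun i => (b i : V)) (b.repr (pr v)) + c0 v • e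
    rw [e1]
    simp [hpr]
  · intro i
    have e2 : pr (b i : V) = b i := by
      apply Subtype.ext
      have : c0 (b i : V) = 0 := (b i).2
      simp [hpr, this]
    show b.repr (pr (b i : V)) = _
    rw [e2, b.repr_self]
  · intro i
    exact (b i).2
  · have e3 : pr e = 0 := by
      apply Subtype.ext
      by_cases he : e = 0
      · simp [hpr, he]
      · simp [hpr, h1 he]
    show b.repr (pr e) = 0
    rw [e3, map_zero]

/-- basis data of a linear category -/
structure Bas (k : Type) [Field k] (C : Type) [SmallCategory C] [Preadditive C] [Linear k C] where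
  ι : C → C → Type
  vec : ∀ X Y : C, ι X Y → (X ⟶ Y)
  cf : ∀ X Y : C, (X ⟶ Y) →ₗ[k] (ι X Y →₀ k)
  c0 : ∀ X Y : C, (X ⟶ Y) →ₗ[k] k
  cf_vec : ∀ X Y (i : ι X Y), cf X Y (vec X Y i) = Finsupp.single i 1
  c0_vec : ∀ X Y (i : ι X Y), c0 X Y (vec X Y i) = 0
  c0_ne : ∀ X Y, X ≠ Y → c0 X Y = 0
  cf_id : ∀ X, cf X X (𝟙 X) = 0
  c0_id : ∀ X, c0 X X (𝟙 X) = 1
  dec_ne : ∀ X Y (f : X ⟶ Y), X ≠ Y → f = Finsupp.linearCombination k (vec X Y) (cf X Y f)
  dec_eq : ∀ X (f : X ⟶ X), f = Finsupp.linearCombination k (vec X X) (cf X X f) + c0 X X f • 𝟙 X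

open Classical in
theorem exists_bas (k : Type) [Field k] (C : Type) [SmallCategory C] [Preadditive C] [Linear k C]
    (hid : ∀ X : C, 𝟙 X ≠ 0) : Nonempty (Bas k C) := by
  choose ι vec cf c0 h1 h2 h3 h4 h5 h6 using fun X Y : C =>
    exists_dec k (X ⟶ Y) (if h : X = Y then eqToHom h else 0)
  refine ⟨⟨ι, vec, cf, c0, h2, h3, ?_, ?_, ?_, ?_, ?_⟩⟩
  · intro X Y h
    exact h6 X Y (by simp [h])
  · intro X
    have := h4 X X
    simpa using this
  · intro X
    have := h5 X X
    simp only [dif_pos, eqToHom_refl] at this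
    exact this (hid X)
  · intro X Y f h
    have := h1 X Y f
    simpa [h] using this
  · intro X f
    have := h1 X X f
    simpa using this

variable {k : Type} [Field k] {C : Type} [SmallCategory C] [Preadditive C] [Linear k C]

/-- letters -/
structure Letter (B : Bas k C) where
  src : C
  tgt : C
  i : B.ι src tgt

variable (B : Bas k C)

/-- the morphism of a letter -/
def Letter.mor {B : Bas k C} (l : Letter B) : l.src ⟶ l.tgt := B.vec _ _ l.i

/-- reduced words -/
def Red (l : List (Letter B)) : Prop := l.IsChain fun a b => a.src ≠ b.tgt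

/-- the type of reduced words -/
abbrev W := {l : List (Letter B) // Red B l}

/-- the head target is not `X` -/
def NH {B : Bas k C} (X : C) (l : List (Letter B)) : Prop := ∀ y ∈ l.head?, X ≠ y.tgt

/-- the last source is not `X` -/
def NT {B : Bas k C} (X : C) (l : List (Letter B)) : Prop := ∀ y ∈ l.getLast?, y.src ≠ X

theorem red_cons {B : Bas k C} (a : Letter B) (l : List (Letter B)) :
    Red B (a :: l) ↔ NH a.src l ∧ Red B l := List.isChain_cons

/-- extend a word by a letter on the left -/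
def W.cons {B : Bas k C} {X Z : C} (w : W B) (h : NH X w.1) (i : B.ι X Z) : W B :=
  ⟨⟨X, Z, i⟩ :: w.1, (red_cons _ _).2 ⟨h, w.2⟩⟩

/-- the space with basis the reduced words -/
abbrev H := W B →₀ k

/-- the map `g ↦ g w` -/
noncomputable def J {B : Bas k C} (X Z : C) (w : W B) (h : NH X w.1) : (X ⟶ Z) →ₗ[k] H B :=
  (Finsupp.lmapDomain k k (fun i => w.cons h i)) ∘ₗ B.cf X Z +
    (B.c0 X Z).smulRight (Finsupp.single w 1)

theorem J_vec {B : Bas k C} (X Z : C) (w : W B) (h : NH X w.1) (i : B.ι X Z) :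
    J X Z w h (B.vec X Z i) = Finsupp.single (w.cons h i) 1 := by
  simp [J, B.cf_vec, B.c0_vec, Finsupp.mapDomain_single]

theorem J_id {B : Bas k C} (X : C) (w : W B) (h : NH X w.1) :
    J X X w h (𝟙 X) = Finsupp.single w 1 := by
  simp [J, B.cf_id, B.c0_id]

/-- left decompositions -/
structure Dec (Y : C) where
  X : C
  g : X ⟶ Y
  w : W B
  h : NH X w.1

open Classical in
/-- the left decomposition of a word at `Y` -/
noncomputable def dec {B : Bas k C} (Y : C) : W B → Dec B Y
  | ⟨[], h⟩ => ⟨Y, 𝟙 Y, ⟨[], h⟩, fun _ hy => by simp at hy⟩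
  | ⟨a :: l, h⟩ =>
    if e : a.tgt = Y then ⟨a.src, a.mor ≫ eqToHom e, ⟨l, ((red_cons _ _).1 h).2⟩,
      ((red_cons _ _).1 h).1⟩
    else ⟨Y, 𝟙 Y, ⟨a :: l, h⟩, fun y hy => by
      rw [List.head?_cons, Option.mem_some_iff] at hy
      rw [← hy]
      exact fun h => e h.symm⟩

theorem dec_of_NH {B : Bas k C} (Y : C) (w : W B) (h : NH Y w.1) :
    dec Y w = ⟨Y, 𝟙 Y, w, h⟩ := by
  obtain ⟨l, hl⟩ := w
  cases l with
  | nil => rfl
  | cons a l =>
    have e : ¬ a.tgt = Y := fun h' => h a (by simp) h'.symm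
    simp [dec, e]

theorem dec_cons {B : Bas k C} (X Y : C) (w : W B) (h : NH X w.1) (i : B.ι X Y) :
    dec Y (w.cons h i) = ⟨X, B.vec X Y i, w, h⟩ := by
  simp [dec, W.cons, Letter.mor]

/-- the operator of a morphism -/
noncomputable def L {Y Z : C} (f : Y ⟶ Z) : H B →ₗ[k] H B :=
  Finsupp.linearCombination k fun w => J (dec Y w).X Z (dec Y w).w (dec Y w).h ((dec Y w).g ≫ f)

theorem L_single {Y Z : C} (f : Y ⟶ Z) (w : W B) : L B f (Finsupp.single w 1) =
    J (dec Y w).X Z (dec Y w).w (dec Y w).h ((dec Y w).g ≫ f) := by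
  simp [L]

theorem L_NH {Y Z : C} (f : Y ⟶ Z) (w : W B) (h : NH Y w.1) :
    L B f (Finsupp.single w 1) = J Y Z w h f := by
  rw [L_single, dec_of_NH Y w h]
  simp

theorem L_cons {X Y Z : C} (f : Y ⟶ Z) (w : W B) (h : NH X w.1) (i : B.ι X Y) :
    L B f (Finsupp.single (w.cons h i) 1) = J X Z w h (B.vec X Y i ≫ f) := by
  rw [L_single, dec_cons X Y w h i]

theorem L_J {X Z Z' : C} (w : W B) (h : NH X w.1) (f : X ⟶ Z) (g : Z ⟶ Z') :
    L B g (J X Z w h f) = J X Z' w h (f ≫ g) := by
  -- both sides are linear in `f`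
  have key : ∀ F : B.ι X Z →₀ k, L B g (J X Z w h (Finsupp.linearCombination k (B.vec X Z) F)) =
      J X Z' w h (Finsupp.linearCombination k (B.vec X Z) F ≫ g) := by
    intro F
    induction F using Finsupp.induction_linear with
    | zero => simp
    | add F G hF hG => simp only [map_add, Preadditive.add_comp, hF, hG]
    | single i c =>
      rw [Finsupp.linearCombination_single, map_smul, map_smul, J_vec, L_cons, Linear.smul_comp,
        map_smul]
  by_cases e : X = Z
  · subst e
    rw [B.dec_eq X f]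
    simp only [map_add, Preadditive.add_comp, key, map_smul, Linear.smul_comp]
    rw [J_id, L_NH B g w h, Category.id_comp]
  · rw [B.dec_ne X Z f e]
    exact key _

theorem L_comp {Y Z Z' : C} (f : Y ⟶ Z) (g : Z ⟶ Z') : L B (f ≫ g) = L B g * L B f := by
  refine Finsupp.lhom_ext' fun w => ?_
  refine LinearMap.ext_ring ?_
  show L B (f ≫ g) (Finsupp.single w 1) = L B g (L B f (Finsupp.single w 1))
  rw [L_single B f, L_J, L_single]
  simp

theorem L_id (Y : C) : L B (𝟙 Y) = 1 := by
  refine Finsupp.lhom_ext' fun w => ?_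
  refine LinearMap.ext_ring ?_
  show L B (𝟙 Y) (Finsupp.single w 1) = Finsupp.single w 1
  by_cases h : NH Y w.1
  · rw [L_NH B _ w h, J_id]
  · obtain ⟨l, hl⟩ := w
    cases l with
    | nil => exact absurd (fun _ hy => by simp at hy) h
    | cons a l =>
      have hh := (red_cons _ _).1 hl
      have e : a.tgt = Y := by
        by_contra e
        apply h
        intro y hy
        simp only [List.head?_cons, Option.mem_some_iff] at hy
        rw [← hy]
        exact fun h' => e h'.symm
      obtain ⟨X, Z, i⟩ := a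
      simp only at e hh
      subst e
      have := L_cons B (𝟙 Z) ⟨l, hh.2⟩ hh.1 i
      rw [Category.comp_id, J_vec] at this
      exact this

theorem L_add {Y Z : C} (f g : Y ⟶ Z) : L B (f + g) = L B f + L B g := by
  refine Finsupp.lhom_ext' fun w => ?_
  refine LinearMap.ext_ring ?_
  show L B (f + g) (Finsupp.single w 1) = L B f (Finsupp.single w 1) + L B g (Finsupp.single w 1)
  rw [L_single, L_single, L_single, Preadditive.comp_add, map_add]

theorem L_smul {Y Z : C} (c : k) (f : Y ⟶ Z) : L B (c • f) = c • L B f := by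
  refine Finsupp.lhom_ext' fun w => ?_
  refine LinearMap.ext_ring ?_
  show L B (c • f) (Finsupp.single w 1) = c • L B f (Finsupp.single w 1)
  rw [L_single, L_single, Linear.comp_smul, map_smul]

end Pool.Agent.H462T0
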