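import Mathlib
import Pool.Agent.H462T0.A

set_option autoImplicit false

open CategoryTheory

namespace Pool.Agent.H462T0

variable {k : Type} [Field k] {C : Type} [SmallCategory C] [Preadditive C] [Linear k C]
variable (B : Bas k C)

/-- the empty word -/
def nilW : W B := ⟨[], List.isChain_nil⟩

/-- product of a word -/
noncomputable def th (l : List (Letter B)) : Module.End k (H B) :=
  (l.map fun a => L B a.mor).prod

theorem th_nil : th B [] = 1 := rfl
theorem th_cons (a : Letter B) (l : List (Letter B)) : th B (a :: l) = L B a.mor * th B l := by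
  simp [th]
theorem th_append (l m : List (Letter B)) : th B (l ++ m) = th B l * th B m := by
  simp [th]

theorem L_vec_single (a : Letter B) (l : List (Letter B)) (h : Red B (a :: l)) :
    L B a.mor (Finsupp.single ⟨l, ((red_cons _ _).1 h).2⟩ 1) = Finsupp.single ⟨a :: l, h⟩ 1 := by
  rw [L_NH B a.mor ⟨l, ((red_cons _ _).1 h).2⟩ ((red_cons _ _).1 h).1]
  exact J_vec a.src a.tgt ⟨l, ((red_cons _ _).1 h).2⟩ ((red_cons _ _).1 h).1 a.i

theorem th_apply (u w : List (Letter B)) (hw : Red B w) (h : Red B (u ++ w)) :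
    th B u (Finsupp.single ⟨w, hw⟩ 1) = Finsupp.single ⟨u ++ w, h⟩ 1 := by
  induction u with
  | nil => rfl
  | cons a u ih =>
    have h' : Red B (a :: (u ++ w)) := h
    rw [th_cons]
    show L B a.mor (th B u (Finsupp.single ⟨w, hw⟩ 1)) = _
    rw [ih ((red_cons _ _).1 h').2]
    exact L_vec_single B a (u ++ w) h'

/-- the operator with a given value at the empty word -/
noncomputable def Th : H B →ₗ[k] Module.End k (H B) :=
  Finsupp.linearCombination k fun w => th B w.1

theorem Th_single (w : W B) : Th B (Finsupp.single w 1) = th B w.1 := by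
  simp [Th]

theorem Th_nil : Th B (Finsupp.single (nilW B) 1) = 1 := Th_single B _

theorem Th_apply_nil (h : H B) : Th B h (Finsupp.single (nilW B) 1) = h := by
  have key : (LinearMap.applyₗ (Finsupp.single (nilW B) (1:k))).comp (Th B) = LinearMap.id := by
    refine Finsupp.lhom_ext' fun w => ?_
    refine LinearMap.ext_ring ?_
    show Th B (Finsupp.single w 1) (Finsupp.single (nilW B) 1) = Finsupp.single w 1
    rw [Th_single]
    have h1 : Red B (w.1 ++ []) := by rw [List.append_nil]; exact w.2
    have h2 := th_apply B w.1 [] List.isChain_nil h1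
    refine h2.trans ?_
    congr 1
    exact Subtype.ext (List.append_nil _)
  exact LinearMap.congr_fun key h

theorem L_mul_th {X Z : C} (g : X ⟶ Z) (w : W B) (h : NH X w.1) :
    L B g * th B w.1 = Th B (J X Z w h g) := by
  have key : ∀ F : B.ι X Z →₀ k, L B (Finsupp.linearCombination k (B.vec X Z) F) * th B w.1 =
      Th B (J X Z w h (Finsupp.linearCombination k (B.vec X Z) F)) := by
    intro F
    induction F using Finsupp.induction_linear with
    | zero =>
      have h0 : L B (0 : X ⟶ Z) = 0 := by
        have := L_smul B (0 : k) (0 : X ⟶ Z)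
        simpa using this
      simp [h0]
    | add F G hF hG => simp only [map_add, L_add, add_mul, hF, hG]
    | single i c =>
      rw [Finsupp.linearCombination_single, map_smul, map_smul, J_vec, L_smul, smul_mul_assoc,
        Th_single]
      congr 1
  by_cases e : X = Z
  · subst e
    rw [B.dec_eq X g]
    simp only [map_add, L_add, add_mul, key, map_smul, L_smul]
    rw [J_id, L_id, Th_single, smul_mul_assoc, one_mul]
  · rw [B.dec_ne X Z g e]
    exact key _

theorem th_dec (Y : C) (w : W B) : th B w.1 = L B (dec Y w).g * th B (dec Y w).w.1 := by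
  by_cases h : NH Y w.1
  · rw [dec_of_NH Y w h, L_id, one_mul]
  · obtain ⟨l, hl⟩ := w
    cases l with
    | nil => exact absurd (fun _ hy => by simp at hy) h
    | cons a l =>
      have hh := (red_cons _ _).1 hl
      have e : a.tgt = Y := by
        by_contra e
        apply h
        intro y hy
        simp only [List.head?_cons, Option.mem_some_iff] at hy
        rw [← hy]
        exact fun h' => e h'.symm
      obtain ⟨X, Z, i⟩ := a
      simp only at e hh
      subst e
      have := dec_cons X Z ⟨l, hh.2⟩ hh.1 i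
      have e2 : dec Z (⟨⟨X, Z, i⟩ :: l, hl⟩ : W B) = ⟨X, B.vec X Z i, ⟨l, hh.2⟩, hh.1⟩ := this
      rw [e2]
      exact th_cons B _ _

theorem L_mul_Th {Y Z : C} (f : Y ⟶ Z) (h : H B) : L B f * Th B h = Th B (L B f h) := by
  have key : (LinearMap.mulLeft k (L B f)).comp (Th B) = (Th B).comp (L B f) := by
    refine Finsupp.lhom_ext' fun w => ?_
    refine LinearMap.ext_ring ?_
    show L B f * Th B (Finsupp.single w 1) = Th B (L B f (Finsupp.single w 1))
    rw [Th_single, th_dec B Y w, ← mul_assoc, ← L_comp, L_single,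
      L_mul_th B _ (dec Y w).w (dec Y w).h]
  exact LinearMap.congr_fun key h

/-- the algebra -/
noncomputable def S : Subalgebra k (Module.End k (H B)) :=
  Algebra.adjoin k {T | ∃ (Y Z : C) (f : Y ⟶ Z), T = L B f}

theorem L_mem {Y Z : C} (f : Y ⟶ Z) : L B f ∈ S B := Algebra.subset_adjoin ⟨Y, Z, f, rfl⟩

theorem mul_Th (T : Module.End k (H B)) (hT : T ∈ S B) :
    ∀ h : H B, T * Th B h = Th B (T h) := by
  induction hT using Algebra.adjoin_induction with
  | mem T hT =>
    obtain ⟨Y, Z, f, rfl⟩ := hT
    exact L_mul_Th B f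
  | algebraMap r =>
    intro h
    rw [Module.algebraMap_end_apply, map_smul, Algebra.algebraMap_eq_smul_one, smul_mul_assoc,
      one_mul]
  | add x y _ _ hx hy =>
    intro h
    rw [add_mul, hx, hy, LinearMap.add_apply, map_add]
  | mul x y _ _ hx hy =>
    intro h
    rw [mul_assoc, hy, hx]
    rfl

theorem eq_Th (T : Module.End k (H B)) (hT : T ∈ S B) :
    T = Th B (T (Finsupp.single (nilW B) 1)) := by
  rw [← mul_Th B T hT, Th_nil, mul_one]

/-! degrees -/

/-- combinations of words of length at most `n` -/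
noncomputable def HS (n : ℕ) : Submodule k (H B) := Finsupp.supported k k {w : W B | w.1.length ≤ n}

theorem HS_mono {m n : ℕ} (h : m ≤ n) : HS B m ≤ HS B n :=
  Finsupp.supported_mono fun _ hw => le_trans hw h

theorem single_HS (w : W B) {n : ℕ} (h : w.1.length ≤ n) (c : k) : Finsupp.single w c ∈ HS B n :=
  Finsupp.single_mem_supported k c h

theorem HS_apply {n : ℕ} {h : H B} (hh : h ∈ HS B n) {w : W B} (hw : n < w.1.length) : h w = 0 := by
  by_contra hne
  have : w ∈ {w : W B | w.1.length ≤ n} := hh (Finsupp.mem_support_iff.2 hne)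
  exact absurd this (not_le.2 hw)

theorem map_HS {T : H B →ₗ[k] H B} {m n : ℕ}
    (hT : ∀ w : W B, w.1.length ≤ m → T (Finsupp.single w 1) ∈ HS B n) {h : H B}
    (hh : h ∈ HS B m) : T h ∈ HS B n := by
  have e : h = ∑ w ∈ h.support, h w • Finsupp.single w (1:k) := by
    conv_lhs => rw [← h.sum_single]
    rw [Finsupp.sum]
    simp
  rw [e, map_sum]
  refine Submodule.sum_mem _ fun w hw => ?_
  rw [map_smul]
  exact Submodule.smul_mem _ _ (hT w (hh hw))

theorem J_HS {X Z : C} (w : W B) (h : NH X w.1) (g : X ⟶ Z) :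
    J X Z w h g ∈ HS B (w.1.length + 1) := by
  refine Submodule.add_mem _ ?_ ?_
  · show Finsupp.mapDomain (fun i => w.cons h i) (B.cf X Z g) ∈ HS B (w.1.length + 1)
    classical
    intro v hv
    have := Finsupp.mapDomain_support hv
    rw [Finset.mem_image] at this
    obtain ⟨i, _, rfl⟩ := this
    show (w.cons h i).1.length ≤ w.1.length + 1
    simp [W.cons]
  · exact Submodule.smul_mem _ _ (single_HS B w (by omega) 1)

theorem dec_length (Y : C) (w : W B) : (dec Y w).w.1.length ≤ w.1.length ∧
    (¬ NH Y w.1 → (dec Y w).w.1.length + 1 = w.1.length) := by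
  by_cases h : NH Y w.1
  · rw [dec_of_NH Y w h]
    exact ⟨le_refl _, fun h' => absurd h h'⟩
  · obtain ⟨l, hl⟩ := w
    cases l with
    | nil => exact absurd (fun _ hy => by simp at hy) h
    | cons a l =>
      have hh := (red_cons _ _).1 hl
      have e : a.tgt = Y := by
        by_contra e
        apply h
        intro y hy
        simp only [List.head?_cons, Option.mem_some_iff] at hy
        rw [← hy]
        exact fun h' => e h'.symm
      obtain ⟨X, Z, i⟩ := a
      simp only at e hh
      subst e
      have e2 : dec Z (⟨⟨X, Z, i⟩ :: l, hl⟩ : W B) = ⟨X, B.vec X Z i, ⟨l, hh.2⟩, hh.1⟩ :=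
        dec_cons X Z ⟨l, hh.2⟩ hh.1 i
      rw [e2]
      simp

theorem L_HS {Y Z : C} (f : Y ⟶ Z) {n : ℕ} {h : H B} (hh : h ∈ HS B n) :
    L B f h ∈ HS B (n + 1) := by
  refine map_HS B (fun w hw => ?_) hh
  rw [L_single]
  exact HS_mono B (by have := (dec_length B Y w).1; omega) (J_HS B _ _ _)

theorem L_HS' {Y Z : C} (f : Y ⟶ Z) (w : W B) (hw : ¬ NH Y w.1) :
    L B f (Finsupp.single w 1) ∈ HS B w.1.length := by
  rw [L_single]
  exact HS_mono B (by have := (dec_length B Y w).2 hw; omega) (J_HS B _ _ _)

theorem th_HS (u : List (Letter B)) {n : ℕ} {h : H B} (hh : h ∈ HS B n) :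
    th B u h ∈ HS B (u.length + n) := by
  induction u with
  | nil => rw [th_nil]; simpa using hh
  | cons a u ih =>
    rw [th_cons]
    have := L_HS B a.mor ih
    refine HS_mono B ?_ this
    simp only [List.length_cons]
    omega

/-- products of words that are not reduced are shorter -/
theorem th_HS' (u w : W B) (h : ¬ Red B (u.1 ++ w.1)) :
    th B u.1 (Finsupp.single w 1) ∈ HS B (u.1.length + w.1.length - 1) := by
  obtain ⟨u, hu⟩ := u
  obtain ⟨w, hw⟩ := w
  simp only at h ⊢
  induction u with
  | nil => exact absurd hw h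
  | cons a u ih =>
    rw [th_cons]
    have hau := (red_cons _ _).1 hu
    by_cases h2 : Red B (u ++ w)
    · show L B a.mor (th B u (Finsupp.single ⟨w, hw⟩ 1)) ∈ _
      rw [th_apply B u w hw h2]
      have h3 : ¬ NH a.src (u ++ w) := fun h3 => h ((red_cons _ _).2 ⟨h3, h2⟩)
      refine HS_mono B ?_ (L_HS' B a.mor ⟨u ++ w, h2⟩ h3)
      simp only [List.length_append, List.length_cons]
      omega
    · have h4 := ih hau.2 h2
      refine HS_mono B ?_ (L_HS B a.mor h4)
      have : u ++ w ≠ [] := by
        intro h5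
        exact h2 (by rw [h5]; exact List.isChain_nil)
      have h6 : 0 < (u ++ w).length := List.length_pos_iff.2 this
      simp only [List.length_append, List.length_cons] at h6 ⊢
      omega

/-- the top coefficients of a product, first case -/
theorem coeff_top (u w u0 w0 : W B) (hu : u.1.length ≤ u0.1.length)
    (hw : w.1.length ≤ w0.1.length) (h0 : Red B (u0.1 ++ w0.1)) (hne : ¬ (u = u0 ∧ w = w0)) :
    (th B u.1 (Finsupp.single w 1)) ⟨u0.1 ++ w0.1, h0⟩ = 0 := by
  classical
  by_cases h : Red B (u.1 ++ w.1)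
  · have h1 := th_apply B u.1 w.1 w.2 h
    have h2 : (th B u.1 (Finsupp.single w 1)) = Finsupp.single ⟨u.1 ++ w.1, h⟩ 1 := h1
    rw [h2, Finsupp.single_apply, if_neg]
    intro he
    have he' : u.1 ++ w.1 = u0.1 ++ w0.1 := congrArg Subtype.val he
    have hl := congrArg List.length he'
    simp only [List.length_append] at hl
    obtain ⟨e1, e2⟩ := List.append_inj he' (by omega)
    exact hne ⟨Subtype.ext e1, Subtype.ext e2⟩
  · have hpos : 0 < u.1.length + w.1.length := by
      by_contra h5
      have h6 : u.1 = [] := List.length_eq_zero_iff.1 (by omega)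
      have h7 : w.1 = [] := List.length_eq_zero_iff.1 (by omega)
      apply h
      rw [h6, h7]
      exact List.isChain_nil
    refine HS_apply B (th_HS' B u w h) ?_
    simp only [List.length_append]
    omega

/-- the reduced word `u (X → Z) w` -/
theorem red_mid {X Z : C} (u w : W B) (hu : NT Z u.1) (hw : NH X w.1) (i : B.ι X Z) :
    Red B (u.1 ++ (w.cons hw i).1) := by
  refine List.isChain_append.2 ⟨u.2, (w.cons hw i).2, ?_⟩
  intro x hx y hy
  have : (⟨X, Z, i⟩ : Letter B) = y := by
    simpa [W.cons] using hy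
  rw [← this]
  exact hu x hx

theorem th_J {X Z : C} (u w : W B) (hu : NT Z u.1) (hw : NH X w.1) (F : X ⟶ Z) :
    th B u.1 (L B F (Finsupp.single w 1)) =
      Finsupp.mapDomain (fun i => (⟨u.1 ++ (w.cons hw i).1, red_mid B u w hu hw i⟩ : W B))
        (B.cf X Z F) + B.c0 X Z F • th B u.1 (Finsupp.single w 1) := by
  rw [L_NH B F w hw]
  show th B u.1 (Finsupp.mapDomain (fun i => w.cons hw i) (B.cf X Z F) +
    B.c0 X Z F • Finsupp.single w 1) = _
  rw [map_add, map_smul]
  congr 1
  induction B.cf X Z F using Finsupp.induction_linear with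
  | zero => simp
  | add F G hF hG => rw [Finsupp.mapDomain_add, Finsupp.mapDomain_add, map_add, hF, hG]
  | single i c =>
    rw [Finsupp.mapDomain_single, Finsupp.mapDomain_single]
    have h1 := th_apply B u.1 (w.cons hw i).1 (w.cons hw i).2 (red_mid B u w hu hw i)
    have h2 : (Finsupp.single (w.cons hw i) c : H B) = c • Finsupp.single (w.cons hw i) 1 := by
      simp
    rw [h2, map_smul]
    refine (congrArg (fun z => c • z) h1).trans ?_
    simp

/-- the coefficients in the middle, diagonal case -/
theorem coeff_mid {X Z : C} (u w : W B) (hu : NT Z u.1) (hw : NH X w.1) (F : X ⟶ Z)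
    (i : B.ι X Z) : (th B u.1 (L B F (Finsupp.single w 1)))
      ⟨u.1 ++ (w.cons hw i).1, red_mid B u w hu hw i⟩ = B.cf X Z F i := by
  rw [th_J B u w hu hw F, Finsupp.add_apply, Finsupp.smul_apply]
  have h1 : (th B u.1 (Finsupp.single w 1)) ⟨u.1 ++ (w.cons hw i).1, red_mid B u w hu hw i⟩ =
      0 := by
    refine HS_apply B (th_HS B u.1 (single_HS B w le_rfl 1)) ?_
    simp [W.cons]
  rw [h1, smul_zero, add_zero]
  have hinj : Function.Injective
      (fun i => (⟨u.1 ++ (w.cons hw i).1, red_mid B u w hu hw i⟩ : W B)) := by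
    intro i j hij
    have h2 : u.1 ++ (w.cons hw i).1 = u.1 ++ (w.cons hw j).1 := congrArg Subtype.val hij
    have h3 := List.append_cancel_left h2
    simp only [W.cons, List.cons.injEq, Letter.mk.injEq, heq_eq_eq, true_and, and_true] at h3
    exact h3
  exact Finsupp.mapDomain_apply hinj (B.cf X Z F) i

/-- the coefficients in the middle, off-diagonal case -/
theorem coeff_mid_ne {X Z X0 Z0 : C} (u w u0 w0 : W B) (hu : NT Z u.1) (hw : NH X w.1)
    (hu0 : NT Z0 u0.1) (hw0 : NH X0 w0.1) (F : X ⟶ Z) (i0 : B.ι X0 Z0)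
    (h1 : u.1.length ≤ u0.1.length) (h2 : w.1.length ≤ w0.1.length)
    (hne : ¬ (u = u0 ∧ w = w0 ∧ X = X0 ∧ Z = Z0)) :
    (th B u.1 (L B F (Finsupp.single w 1)))
      ⟨u0.1 ++ (w0.cons hw0 i0).1, red_mid B u0 w0 hu0 hw0 i0⟩ = 0 := by
  rw [th_J B u w hu hw F, Finsupp.add_apply, Finsupp.smul_apply]
  have h3 : (th B u.1 (Finsupp.single w 1))
      ⟨u0.1 ++ (w0.cons hw0 i0).1, red_mid B u0 w0 hu0 hw0 i0⟩ = 0 := by
    refine HS_apply B (th_HS B u.1 (single_HS B w le_rfl 1)) ?_
    simp [W.cons]
    omega
  rw [h3, smul_zero, add_zero]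
  apply Finsupp.mapDomain_of_notMem_range
  rintro ⟨i, hi⟩
  have h4 : u.1 ++ (w.cons hw i).1 = u0.1 ++ (w0.cons hw0 i0).1 := congrArg Subtype.val hi
  have hl := congrArg List.length h4
  simp only [W.cons, List.length_append, List.length_cons] at hl
  obtain ⟨e1, e2⟩ := List.append_inj h4 (by omega)
  simp only [W.cons, List.cons.injEq, Letter.mk.injEq] at e2
  exact hne ⟨Subtype.ext e1, Subtype.ext e2.2, e2.1.1, e2.1.2.1⟩

end Pool.Agent.H462T0
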