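import Mathlib
import Pool.Agent.H462T0.B

set_option autoImplicit false

open CategoryTheory

namespace Pool.Agent.H462T0

variable {k : Type} [Field k] {C : Type} [SmallCategory C] [Preadditive C] [Linear k C]
variable (B : Bas k C)

/-- `L` as a linear map -/
noncomputable def Llin (Y Z : C) : (Y ⟶ Z) →ₗ[k] Module.End k (H B) where
  toFun f := L B f
  map_add' := L_add B
  map_smul' := L_smul B

theorem L_of_cf {X Z : C} (g : X ⟶ Z) (h : B.cf X Z g = 0) : ∃ c : k, L B g = c • 1 := by
  by_cases e : X = Z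
  · subst e
    refine ⟨B.c0 X X g, ?_⟩
    conv_lhs => rw [B.dec_eq X g, h, map_zero, zero_add, L_smul, L_id]
  · refine ⟨0, ?_⟩
    have h1 := B.dec_ne X Z g e
    rw [h, map_zero] at h1
    rw [h1, zero_smul]
    exact (Llin B X Z).map_zero

theorem single_right (a : C) (v : W B) : ∃ (i : W B × C) (F : a ⟶ i.2), NT i.2 i.1.1 ∧
    th B v.1 = th B i.1.1 * L B F ∧ i.1.1.length ≤ v.1.length ∧
    (¬ NT a v.1 → i.1.1.length + 1 = v.1.length) := by
  by_cases h : NT a v.1
  · exact ⟨(v, a), 𝟙 a, h, by rw [L_id, mul_one], le_rfl, fun h' => absurd h h'⟩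
  · obtain ⟨v, hv⟩ := v
    unfold NT at h
    push Not at h
    obtain ⟨⟨X, Z, i⟩, hl, hs⟩ := h
    simp only at hs
    subst hs
    have hv2 : v.dropLast ++ [⟨X, Z, i⟩] = v := List.dropLast_append_getLast? _ hl
    have hred : Red B (v.dropLast ++ [⟨X, Z, i⟩]) := by rw [hv2]; exact hv
    obtain ⟨r1, r2, r3⟩ := List.isChain_append.1 hred
    refine ⟨(⟨v.dropLast, r1⟩, Z), B.vec X Z i, ?_, ?_, ?_, ?_⟩
    · intro y hy
      exact r3 y hy ⟨X, Z, i⟩ (by simp)
    · show th B v = th B v.dropLast * L B (B.vec X Z i)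
      conv_lhs => rw [← hv2, th_append, th_cons, th_nil, mul_one]
      rfl
    · simp
    · intro _
      have := congrArg List.length hv2
      simpa using this

theorem single_left (a : C) (v : W B) : ∃ (j : W B × C) (G : j.2 ⟶ a), NH j.2 j.1.1 ∧
    th B v.1 = L B G * th B j.1.1 ∧ j.1.1.length ≤ v.1.length ∧
    (¬ NH a v.1 → j.1.1.length + 1 = v.1.length) :=
  ⟨((dec a v).w, (dec a v).X), (dec a v).g, (dec a v).h, th_dec B a v, (dec_length B a v).1,
    (dec_length B a v).2⟩

theorem Th_sum (h : H B) : Th B h = ∑ v ∈ h.support, h v • th B v.1 := by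
  rw [Th, Finsupp.linearCombination_apply, Finsupp.sum]

open Classical in
theorem right_dec (a : C) (m : ℕ) (h : H B) (hh : h ∈ HS B (m + 1))
    (htop : ∀ v ∈ h.support, v.1.length = m + 1 → ¬ NT a v.1) :
    ∃ (I : Finset (W B × C)) (F : ∀ i : W B × C, (a ⟶ i.2)),
      (∀ i ∈ I, i.1.1.length ≤ m ∧ NT i.2 i.1.1) ∧
      Th B h = ∑ i ∈ I, th B i.1.1 * L B (F i) := by
  choose i F h1 h2 h3 h4 using single_right B a
  let Rm : (Π₀ i : W B × C, (a ⟶ i.2)) →ₗ[k] Module.End k (H B) :=
    DFinsupp.lsum k fun i => (LinearMap.mulLeft k (th B i.1.1)) ∘ₗ Llin B a i.2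
  let e : Π₀ i : W B × C, (a ⟶ i.2) := ∑ v ∈ h.support, h v • DFinsupp.single (β := fun i : W B × C => (a ⟶ i.2)) (i v) (F v)
  refine ⟨e.support, fun i => e i, ?_, ?_⟩
  · intro i' hi'
    have hne : e i' ≠ 0 := DFinsupp.mem_support_iff.1 hi'
    have hne2 : ∑ v ∈ h.support, (h v • DFinsupp.single (β := fun i : W B × C => (a ⟶ i.2)) (i v) (F v)) i' ≠ 0 := by
      rw [← DFinsupp.finsetSum_apply]
      exact hne
    obtain ⟨v, hv, hv2⟩ := Finset.exists_ne_zero_of_sum_ne_zero hne2
    have hiv : i v = i' := by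
      by_contra hc
      apply hv2
      rw [DFinsupp.smul_apply, DFinsupp.single_eq_of_ne (fun h' => hc h'.symm), smul_zero]
    subst hiv
    refine ⟨?_, h1 v⟩
    have hlen : v.1.length ≤ m + 1 := hh hv
    by_cases hNT : NT a v.1
    · have : v.1.length ≠ m + 1 := fun h' => htop v hv h' hNT
      have := h3 v
      omega
    · have := h4 v hNT
      omega
  · have e1 : Rm e = ∑ i ∈ e.support, th B i.1.1 * L B (e i) := by
      simp only [Rm, DFinsupp.lsum_apply_apply, DFinsupp.sumAddHom_apply, DFinsupp.sum]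
      rfl
    have e2 : Rm e = Th B h := by
      rw [Th_sum, map_sum]
      refine Finset.sum_congr rfl fun v _ => ?_
      rw [map_smul]
      congr 1
      simp only [Rm, DFinsupp.lsum_apply_apply, DFinsupp.sumAddHom_single]
      exact (h2 v).symm
    rw [← e2, e1]

open Classical in
theorem left_dec (a : C) (m : ℕ) (h : H B) (hh : h ∈ HS B (m + 1))
    (htop : ∀ v ∈ h.support, v.1.length = m + 1 → ¬ NH a v.1) :
    ∃ (I : Finset (W B × C)) (F : ∀ i : W B × C, (i.2 ⟶ a)),
      (∀ i ∈ I, i.1.1.length ≤ m ∧ NH i.2 i.1.1) ∧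
      Th B h = ∑ i ∈ I, L B (F i) * th B i.1.1 := by
  choose i F h1 h2 h3 h4 using single_left B a
  let Rm : (Π₀ i : W B × C, (i.2 ⟶ a)) →ₗ[k] Module.End k (H B) :=
    DFinsupp.lsum k fun i => (LinearMap.mulRight k (th B i.1.1)) ∘ₗ Llin B i.2 a
  let e : Π₀ i : W B × C, (i.2 ⟶ a) := ∑ v ∈ h.support, h v • DFinsupp.single (β := fun i : W B × C => (i.2 ⟶ a)) (i v) (F v)
  refine ⟨e.support, fun i => e i, ?_, ?_⟩
  · intro i' hi'
    have hne : e i' ≠ 0 := DFinsupp.mem_support_iff.1 hi'
    have hne2 : ∑ v ∈ h.support, (h v • DFinsupp.single (β := fun i : W B × C => (i.2 ⟶ a)) (i v) (F v)) i' ≠ 0 := by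
      rw [← DFinsupp.finsetSum_apply]
      exact hne
    obtain ⟨v, hv, hv2⟩ := Finset.exists_ne_zero_of_sum_ne_zero hne2
    have hiv : i v = i' := by
      by_contra hc
      apply hv2
      rw [DFinsupp.smul_apply, DFinsupp.single_eq_of_ne (fun h' => hc h'.symm), smul_zero]
    subst hiv
    refine ⟨?_, h1 v⟩
    have hlen : v.1.length ≤ m + 1 := hh hv
    by_cases hNT : NH a v.1
    · have : v.1.length ≠ m + 1 := fun h' => htop v hv h' hNT
      have := h3 v
      omega
    · have := h4 v hNT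
      omega
  · have e1 : Rm e = ∑ i ∈ e.support, L B (e i) * th B i.1.1 := by
      simp only [Rm, DFinsupp.lsum_apply_apply, DFinsupp.sumAddHom_apply, DFinsupp.sum]
      rfl
    have e2 : Rm e = Th B h := by
      rw [Th_sum, map_sum]
      refine Finset.sum_congr rfl fun v _ => ?_
      rw [map_smul]
      congr 1
      simp only [Rm, DFinsupp.lsum_apply_apply, DFinsupp.sumAddHom_single]
      exact (h2 v).symm
    rw [← e2, e1]

/-- the empty word as a vector -/
noncomputable abbrev o : H B := Finsupp.single (nilW B) 1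

theorem th_o (w : W B) : th B w.1 (o B) = Finsupp.single w 1 := by
  rw [← Th_single, Th_apply_nil]

theorem o_HS (n : ℕ) : o B ∈ HS B n := single_HS B _ (by simp [nilW]) 1

theorem of_HS0 {h : H B} (hh : h ∈ HS B 0) : ∃ c : k, h = c • o B := by
  refine ⟨h (nilW B), ?_⟩
  ext w
  by_cases hw : w = nilW B
  · subst hw; simp
  · have : 0 < w.1.length := by
      by_contra hc
      have h0 : w.1 = [] := List.length_eq_zero_iff.1 (by omega)
      exact hw (Subtype.ext h0)
    rw [HS_apply B hh this]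
    simp [Finsupp.single_apply, Ne.symm hw]

theorem not_HS {h : H B} {n : ℕ} (hh : h ∈ HS B (n + 1)) (hn : h ∉ HS B n) :
    ∃ v ∈ h.support, v.1.length = n + 1 := by
  by_contra hc
  push Not at hc
  apply hn
  intro v hv
  have h1 : v.1.length ≤ n + 1 := hh hv
  have h2 := hc v hv
  show v.1.length ≤ n
  omega

theorem not_red (u w : W B) (h : ¬ Red B (u.1 ++ w.1)) :
    ∃ p ∈ u.1.getLast?, ∃ q ∈ w.1.head?, p.src = q.tgt := by
  by_contra hc
  push Not at hc
  exact h (List.isChain_append.2 ⟨u.2, w.2, hc⟩)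

/-- the top words of `x` and `y` match if `x y = 0` -/
theorem top_match {x y : H B} {m n : ℕ} (hx : x ∈ HS B m) (hy : y ∈ HS B n)
    (h0 : Th B x y = 0) (u0 w0 : W B) (hu : u0 ∈ x.support) (hw : w0 ∈ y.support)
    (hu1 : u0.1.length = m) (hw1 : w0.1.length = n) : ¬ Red B (u0.1 ++ w0.1) := by
  intro hr
  have e1 : Th B x y = ∑ u ∈ x.support, ∑ w ∈ y.support,
      (x u * y w) • th B u.1 (Finsupp.single w 1) := by
    rw [Th_sum, LinearMap.sum_apply]
    refine Finset.sum_congr rfl fun u _ => ?_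
    have e : y = ∑ w ∈ y.support, y w • Finsupp.single w (1:k) := by
      conv_lhs => rw [← y.sum_single]
      rw [Finsupp.sum]
      simp
    rw [LinearMap.smul_apply]
    conv_lhs => rw [e, map_sum, Finset.smul_sum]
    refine Finset.sum_congr rfl fun w _ => ?_
    rw [map_smul, smul_smul]
  have e2 : (Th B x y) ⟨u0.1 ++ w0.1, hr⟩ = x u0 * y w0 := by
    rw [e1, Finsupp.finsetSum_apply, Finset.sum_eq_single u0]
    · rw [Finsupp.finsetSum_apply, Finset.sum_eq_single w0]
      · rw [Finsupp.smul_apply]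
        have h2 : (th B u0.1 (Finsupp.single w0 1)) = Finsupp.single ⟨u0.1 ++ w0.1, hr⟩ 1 :=
          th_apply B u0.1 w0.1 w0.2 hr
        rw [h2]
        simp
      · intro w hw' hne
        rw [Finsupp.smul_apply, coeff_top B u0 w u0 w0 le_rfl (by rw [hw1]; exact hy hw') hr
          (fun h => hne h.2), smul_zero]
      · intro h
        exact absurd hw h
    · intro u hu' hne
      rw [Finsupp.finsetSum_apply]
      refine Finset.sum_eq_zero fun w hw' => ?_
      rw [Finsupp.smul_apply, coeff_top B u w u0 w0 (by rw [hu1]; exact hx hu')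
        (by rw [hw1]; exact hy hw') hr (fun h => hne h.1), smul_zero]
    · intro h
      exact absurd hu h
  rw [h0, Finsupp.zero_apply] at e2
  rcases mul_eq_zero.1 e2.symm with h | h
  · exact Finsupp.mem_support_iff.1 hu h
  · exact Finsupp.mem_support_iff.1 hw h

end Pool.Agent.H462T0
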