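import Mathlib
import Pool.Agent.H462T0.C

set_option autoImplicit false

open CategoryTheory

namespace Pool.Agent.H462T0

variable {k : Type} [Field k] {C : Type} [SmallCategory C] [Preadditive C] [Linear k C]
variable (B : Bas k C)

theorem scalar_comp
    (hz : ∀ (X Y Z : C) (f : X ⟶ Y) (g : Y ⟶ Z), f ≠ 0 → g ≠ 0 → f ≫ g ≠ 0)
    {a b c : C} (F : a ⟶ b) (G : c ⟶ a) (hF : F ≠ 0) (hG : G ≠ 0)
    (hcf : B.cf c b (G ≫ F) = 0) : ∃ l : k, l ≠ 0 ∧ L B G * L B F = l • 1 := by
  have hGF : G ≫ F ≠ 0 := hz _ _ _ _ _ hG hF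
  have hcb : c = b := by
    by_contra hne
    have h1 := B.dec_ne _ _ (G ≫ F) hne
    rw [hcf, map_zero] at h1
    exact hGF h1
  subst hcb
  have h1 := B.dec_eq _ (G ≫ F)
  rw [hcf, map_zero, zero_add] at h1
  set l := B.c0 c c (G ≫ F) with hl
  refine ⟨l, ?_, ?_⟩
  · intro h
    rw [h, zero_smul] at h1
    exact hGF h1
  · have h2 : (F ≫ G - l • 𝟙 a) ≫ F = 0 := by
      rw [Preadditive.sub_comp, Category.assoc, h1, Linear.smul_comp, Linear.comp_smul,
        Category.comp_id, Category.id_comp, sub_self]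
    have h3 : F ≫ G - l • 𝟙 a = 0 := by
      by_contra h3
      exact hz _ _ _ _ _ h3 hF h2
    rw [← L_comp, sub_eq_zero.1 h3, L_smul, L_id]

theorem dom_aux
    (hz : ∀ (X Y Z : C) (f : X ⟶ Y) (g : Y ⟶ Z), f ≠ 0 → g ≠ 0 → f ≫ g ≠ 0) :
    ∀ N : ℕ, ∀ x ∈ S B, ∀ y ∈ S B, ∀ m n : ℕ, m + n ≤ N → x (o B) ∈ HS B m → y (o B) ∈ HS B n →
      x * y = 0 → x = 0 ∨ y = 0 := by
  intro N
  induction N with
  | zero =>
    intro x hx y hy m n hmn hxm hyn hxy
    obtain ⟨c, hc⟩ := of_HS0 B (HS_mono B (by omega : m ≤ 0) hxm)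
    have h1 := eq_Th B x hx
    change x = Th B (x (o B)) at h1
    rw [hc, map_smul, Th_nil] at h1
    rw [h1, smul_mul_assoc, one_mul] at hxy
    rcases smul_eq_zero.1 hxy with h | h
    · left; rw [h1, h, zero_smul]
    · exact Or.inr h
  | succ N ih =>
    intro x hx y hy m n hmn hxm hyn hxy
    rcases m with _ | m
    · obtain ⟨c, hc⟩ := of_HS0 B hxm
      have h1 := eq_Th B x hx
      change x = Th B (x (o B)) at h1
      rw [hc, map_smul, Th_nil] at h1
      rw [h1, smul_mul_assoc, one_mul] at hxy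
      rcases smul_eq_zero.1 hxy with h | h
      · left; rw [h1, h, zero_smul]
      · exact Or.inr h
    rcases n with _ | n
    · obtain ⟨c, hc⟩ := of_HS0 B hyn
      have h1 := eq_Th B y hy
      change y = Th B (y (o B)) at h1
      rw [hc, map_smul, Th_nil] at h1
      rw [h1, mul_smul_comm, mul_one] at hxy
      rcases smul_eq_zero.1 hxy with h | h
      · right; rw [h1, h, zero_smul]
      · exact Or.inl h
    by_cases hxm' : x (o B) ∈ HS B m
    · exact ih x hx y hy m (n + 1) (by omega) hxm' hyn hxy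
    by_cases hyn' : y (o B) ∈ HS B n
    · exact ih x hx y hy (m + 1) n (by omega) hxm hyn' hxy
    by_contra hcon
    rw [not_or] at hcon
    obtain ⟨hx0, hy0⟩ := hcon
    obtain ⟨us, hus, husl⟩ := not_HS B hxm hxm'
    obtain ⟨ws, hws, hwsl⟩ := not_HS B hyn hyn'
    have hxT : x = Th B (x (o B)) := eq_Th B x hx
    have hyT : y = Th B (y (o B)) := eq_Th B y hy
    have h0 : Th B (x (o B)) (y (o B)) = 0 := by
      rw [← hxT]
      have := LinearMap.congr_fun hxy (o B)
      exact this
    obtain ⟨p, hp, q, hq, hpq⟩ := not_red B us ws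
      (top_match B hxm hyn h0 us ws hus hws husl hwsl)
    have hR : ∀ v ∈ (x (o B)).support, v.1.length = m + 1 → ¬ NT p.src v.1 := by
      intro v hv hvl hNT
      obtain ⟨p', hp', q', hq', hpq'⟩ := not_red B v ws
        (top_match B hxm hyn h0 v ws hv hws hvl hwsl)
      have : q' = q := Option.mem_unique hq' hq
      subst this
      exact hNT p' hp' (hpq'.trans hpq.symm)
    have hLL : ∀ v ∈ (y (o B)).support, v.1.length = n + 1 → ¬ NH p.src v.1 := by
      intro v hv hvl hNH
      obtain ⟨p', hp', q', hq', hpq'⟩ := not_red B us v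
        (top_match B hxm hyn h0 us v hus hv husl hvl)
      have : p' = p := Option.mem_unique hp' hp
      subst this
      exact hNH q' hq' hpq'
    obtain ⟨I, F, hI, hIx⟩ := right_dec B p.src m _ hxm hR
    obtain ⟨I', G, hI', hIy⟩ := left_dec B p.src n _ hyn hLL
    rw [← hxT] at hIx
    rw [← hyT] at hIy
    -- values at the empty word
    have hxo : ∀ T : Module.End k (H B), (x * T) (o B) = ∑ i ∈ I, th B i.1.1 (L B (F i) (T (o B))) := by
      intro T
      rw [hIx, Finset.sum_mul, LinearMap.sum_apply]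
      rfl
    have hyo : ∀ T : Module.End k (H B), (T * y) (o B) =
        ∑ j ∈ I', T (L B (G j) (Finsupp.single j.1 1)) := by
      intro T
      show T (y (o B)) = _
      rw [hIy, LinearMap.sum_apply, map_sum]
      refine Finset.sum_congr rfl fun j _ => ?_
      rw [← th_o B j.1]
      rfl
    have hprod : (x * y) (o B) = ∑ i ∈ I, ∑ j ∈ I',
        th B i.1.1 (L B (G j ≫ F i) (Finsupp.single j.1 1)) := by
      rw [hxo y]
      refine Finset.sum_congr rfl fun i _ => ?_
      have h1 := hyo 1
      rw [one_mul] at h1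
      rw [h1, map_sum, map_sum]
      refine Finset.sum_congr rfl fun j _ => ?_
      rw [L_comp]
      rfl
    have key : ∀ i ∈ I, i.1.1.length = m → ∀ j ∈ I', j.1.1.length = n →
        B.cf j.2 i.2 (G j ≫ F i) = 0 := by
      intro i hi him j hj hjn
      ext β
      have hv0 : (th B i.1.1 (L B (G j ≫ F i) (Finsupp.single j.1 1)))
          ⟨i.1.1 ++ (j.1.cons (hI' j hj).2 β).1, red_mid B i.1 j.1 (hI i hi).2 (hI' j hj).2 β⟩ =
          B.cf j.2 i.2 (G j ≫ F i) β := coeff_mid B i.1 j.1 (hI i hi).2 (hI' j hj).2 _ β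
      rw [← hv0, Finsupp.zero_apply]
      have hs : ((x * y) (o B))
          ⟨i.1.1 ++ (j.1.cons (hI' j hj).2 β).1, red_mid B i.1 j.1 (hI i hi).2 (hI' j hj).2 β⟩ =
          0 := by
        rw [hxy]; rfl
      rw [hprod, Finsupp.finsetSum_apply, Finset.sum_eq_single i] at hs
      · rw [Finsupp.finsetSum_apply, Finset.sum_eq_single j] at hs
        · exact hs
        · intro j' hj' hne
          refine coeff_mid_ne B i.1 j'.1 i.1 j.1 (hI i hi).2 (hI' j' hj').2 (hI i hi).2
            (hI' j hj).2 _ β le_rfl (by rw [hjn]; exact (hI' j' hj').1) ?_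
          rintro ⟨_, h2, h3, _⟩
          exact hne (Prod.ext h2 h3)
        · intro h
          exact absurd hj h
      · intro i' hi' hne
        rw [Finsupp.finsetSum_apply]
        refine Finset.sum_eq_zero fun j' hj' => ?_
        refine coeff_mid_ne B i'.1 j'.1 i.1 j.1 (hI i' hi').2 (hI' j' hj').2 (hI i hi).2
          (hI' j hj).2 _ β (by rw [him]; exact (hI i' hi').1)
          (by rw [hjn]; exact (hI' j' hj').1) ?_
        rintro ⟨h1, _, _, h4⟩
        exact hne (Prod.ext h1 h4)
      · intro h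
        exact absurd hi h
    -- nonzero top terms
    obtain ⟨i0, hi0, him, hFi⟩ : ∃ i ∈ I, i.1.1.length = m ∧ F i ≠ 0 := by
      by_contra hc
      push Not at hc
      apply hxm'
      have h1 := hxo 1
      rw [mul_one] at h1
      rw [h1]
      refine Submodule.sum_mem _ fun i hi => ?_
      show th B i.1.1 (L B (F i) (o B)) ∈ HS B m
      by_cases h2 : i.1.1.length = m
      · rw [hc i hi h2]
        have h3 : L B (0 : p.src ⟶ i.2) = 0 := (Llin B p.src i.2).map_zero
        rw [h3]
        simp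
      · have h3 := (hI i hi).1
        exact HS_mono B (by omega) (th_HS B i.1.1 (L_HS B (F i) (o_HS B 0)))
    obtain ⟨j0, hj0, hjn, hGj⟩ : ∃ j ∈ I', j.1.1.length = n ∧ G j ≠ 0 := by
      by_contra hc
      push Not at hc
      apply hyn'
      have h1 := hyo 1
      rw [one_mul] at h1
      rw [h1]
      refine Submodule.sum_mem _ fun j hj => ?_
      show L B (G j) (Finsupp.single j.1 1) ∈ HS B n
      by_cases h2 : j.1.1.length = n
      · rw [hc j hj h2]
        have h3 : L B (0 : j.2 ⟶ p.src) = 0 := (Llin B j.2 p.src).map_zero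
        rw [h3]
        simp
      · have h3 := (hI' j hj).1
        exact HS_mono B (by omega) (L_HS B (G j) (single_HS B j.1 le_rfl 1))
    -- the degrees of `x L(G)` and `L(F) y`
    have hdx : (x * L B (G j0)) (o B) ∈ HS B m := by
      rw [hxo]
      refine Submodule.sum_mem _ fun i hi => ?_
      have e : L B (F i) (L B (G j0) (o B)) = L B (G j0 ≫ F i) (o B) := by
        rw [L_comp]; rfl
      rw [e]
      by_cases h2 : i.1.1.length = m
      · obtain ⟨c, hc⟩ := L_of_cf B _ (key i hi h2 j0 hj0 hjn)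
        rw [hc]
        have h3 := th_HS B i.1.1 (Submodule.smul_mem _ c (o_HS B 0))
        exact HS_mono B (by omega) h3
      · have h3 := (hI i hi).1
        exact HS_mono B (by omega) (th_HS B i.1.1 (L_HS B _ (o_HS B 0)))
    have hdy : (L B (F i0) * y) (o B) ∈ HS B n := by
      rw [hyo]
      refine Submodule.sum_mem _ fun j hj => ?_
      have e : L B (F i0) (L B (G j) (Finsupp.single j.1 1)) =
          L B (G j ≫ F i0) (Finsupp.single j.1 1) := by
        rw [L_comp]; rfl
      rw [e]
      by_cases h2 : j.1.1.length = n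
      · obtain ⟨c, hc⟩ := L_of_cf B _ (key i0 hi0 him j hj h2)
        rw [hc]
        exact Submodule.smul_mem _ c (single_HS B j.1 (by omega) 1)
      · have h3 := (hI' j hj).1
        exact HS_mono B (by omega) (L_HS B _ (single_HS B j.1 le_rfl 1))
    -- `G F` and `F G` are scalars
    have hcf := key i0 hi0 him j0 hj0 hjn
    obtain ⟨l, hl0, hl⟩ := scalar_comp B hz (F i0) (G j0) hFi hGj hcf
    have hx' : x * L B (G j0) * L B (F i0) = l • x := by
      rw [mul_assoc, hl, mul_smul_comm, mul_one]
    have hy' : L B (G j0) * (L B (F i0) * y) = l • y := by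
      rw [← mul_assoc, hl, smul_mul_assoc, one_mul]
    have hxy' : (x * L B (G j0)) * (L B (F i0) * y) = 0 := by
      rw [mul_assoc, hy', mul_smul_comm, hxy, smul_zero]
    rcases ih _ ((S B).mul_mem hx (L_mem B _)) _ ((S B).mul_mem (L_mem B _) hy) m n (by omega)
      hdx hdy hxy' with h | h
    · rw [h, zero_mul] at hx'
      rcases smul_eq_zero.1 hx'.symm with h' | h'
      · exact hl0 h'
      · exact hx0 h'
    · rw [h, mul_zero] at hy'
      rcases smul_eq_zero.1 hy'.symm with h' | h'
      · exact hl0 h'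
      · exact hy0 h'

theorem L_injective {X Z : C} (f : X ⟶ Z) (h : L B f = 0) : f = 0 := by
  have hn : ∀ Y : C, NH Y (nilW B).1 := fun Y y hy => by simp [nilW] at hy
  have ht : ∀ Y : C, NT Y (nilW B).1 := fun Y y hy => by simp [nilW] at hy
  have h1 : L B f (Finsupp.single (nilW B) 1) = 0 := by rw [h]; rfl
  have hcf : B.cf X Z f = 0 := by
    ext i
    have h2 := coeff_mid B (nilW B) (nilW B) (ht Z) (hn X) f i
    rw [h1, map_zero] at h2
    exact h2.symm
  have hc0 : B.c0 X Z f = 0 := by
    rw [L_NH B f (nilW B) (hn X)] at h1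
    have h3 : (Finsupp.mapDomain (fun i => (nilW B).cons (hn X) i) (B.cf X Z f) : H B) +
        B.c0 X Z f • Finsupp.single (nilW B) 1 = 0 := h1
    rw [hcf, Finsupp.mapDomain_zero, zero_add] at h3
    have h4 := congrArg (fun z : H B => z (nilW B)) h3
    simpa using h4
  by_cases e : X = Z
  · subst e
    rw [B.dec_eq X f, hcf, hc0]
    simp
  · rw [B.dec_ne X Z f e, hcf, map_zero]

theorem taskT0 (k : Type) [Field k] : H354P.TaskT0 k := by
  intro C _ _ _ hz hid hne
  obtain ⟨B⟩ := exists_bas k C hid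
  letI hring : Ring (S B) := Algebra.semiringToRing k
  have hnt : Nontrivial (S B) := by
    refine ⟨⟨0, 1, fun h => ?_⟩⟩
    have h1 : (0 : Module.End k (H B)) = 1 := congrArg Subtype.val h
    have h2 := LinearMap.congr_fun h1 (o B)
    have h3 : (0 : H B) = Finsupp.single (nilW B) 1 := h2
    exact one_ne_zero (Finsupp.single_eq_zero.1 h3.symm)
  have hnz : NoZeroDivisors (S B) := by
    refine ⟨fun {x y} hxy => ?_⟩
    have h1 : (x : Module.End k (H B)) * y = 0 := congrArg Subtype.val hxy
    obtain ⟨m, hm⟩ : ∃ m, (x : Module.End k (H B)) (o B) ∈ HS B m := by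
      refine ⟨((x : Module.End k (H B)) (o B)).support.sup fun w => w.1.length, fun w hw => ?_⟩
      exact Finset.le_sup (f := fun w : W B => w.1.length) hw
    obtain ⟨n, hn⟩ : ∃ n, (y : Module.End k (H B)) (o B) ∈ HS B n := by
      refine ⟨((y : Module.End k (H B)) (o B)).support.sup fun w => w.1.length, fun w hw => ?_⟩
      exact Finset.le_sup (f := fun w : W B => w.1.length) hw
    rcases dom_aux B hz (m + n) x x.2 y y.2 m n le_rfl hm hn h1 with h | h
    · exact Or.inl (Subtype.ext h)
    · exact Or.inr (Subtype.ext h)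
  have hdom : IsDomain (S B) := NoZeroDivisors.to_isDomain (S B)
  refine ⟨S B, hring, inferInstance, hdom,
    fun X Y => { toFun := fun f => ⟨L B f, L_mem B f⟩
                 map_add' := fun f g => Subtype.ext (L_add B f g)
                 map_smul' := fun c f => Subtype.ext (L_smul B c f) }, ?_, ?_, ?_⟩
  · intro X Y f g hfg
    have h1 : L B f = L B g := congrArg Subtype.val hfg
    have h2 : L B (f - g) = 0 := by
      have e : f - g = f + (-1 : k) • g := by rw [neg_one_smul, sub_eq_add_neg]
      rw [e, L_add, L_smul, h1]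
      have e2 : (1 : k) • L B g + (-1 : k) • L B g = 0 := by
        rw [← add_smul, add_neg_cancel, zero_smul]
      rwa [one_smul] at e2
    exact sub_eq_zero.1 (L_injective B _ h2)
  · intro X
    exact Subtype.ext (L_id B X)
  · intro X Y Z f g
    exact Subtype.ext (L_comp B f g)

end Pool.Agent.H462T0
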